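import Pool.Agent.R271.LineFractal

/-!
# Assouad dimension of projections of self-similar sets: a counterexample in space
-/

open Filter Topology Metric Set
open scoped ENNReal
open Pool.Agent.R271.LineFractal

namespace Pool.Agent.Results.MP_c72560_an.LineInSpace

/-! ### Definitions -/

/-- The least number of sets of diameter at most `r` needed to cover `A`. -/
noncomputable def coverNum {X : Type} [PseudoMetricSpace X] (r : ℝ) (A : Set X) : ℕ :=
  sInf {n : ℕ | ∃ U : Fin n → Set X, (∀ i, ∀ x ∈ U i, ∀ y ∈ U i, dist x y ≤ r) ∧ A ⊆ ⋃ i, U i}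

/-- The Assouad dimension. -/
noncomputable def dimA {X : Type} [PseudoMetricSpace X] (A : Set X) : ℝ :=
  sInf {s : ℝ | 0 ≤ s ∧ ∃ C : ℝ, 0 < C ∧ ∀ R : ℝ, 0 < R → ∀ r : ℝ, 0 < r → r < R →
    ∀ x ∈ A, (coverNum r (ball x R ∩ A) : ℝ) ≤ C * (R / r) ^ s}

/-- The unit cube of `ℝ ^ d`. -/
def cube (d : ℕ) : Set (EuclideanSpace ℝ (Fin d)) := {x | ∀ j, 0 ≤ x j ∧ x j ≤ 1}

/-- Self-similar sets in the unit cube of `ℝ ^ d`. -/
def IsSelfSimilar {d : ℕ} (A : Set (EuclideanSpace ℝ (Fin d))) : Prop :=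
  ∃ (n : ℕ) (c : Fin n → ℝ) (O : Fin n → (EuclideanSpace ℝ (Fin d) ≃ₗᵢ[ℝ]
    EuclideanSpace ℝ (Fin d))) (t : Fin n → EuclideanSpace ℝ (Fin d)),
    (∀ i, 0 < c i ∧ c i < 1) ∧ (∀ i, ∀ x ∈ cube d, c i • O i x + t i ∈ cube d) ∧
    A.Nonempty ∧ IsCompact A ∧ A ⊆ cube d ∧ A = ⋃ i, (fun x => c i • O i x + t i) '' A

/-- Three-dimensional space. -/
abbrev E3 : Type := EuclideanSpace ℝ (Fin 3)

/-- The Grassmannian of the planes of `ℝ ^ 3`. -/
def Gr : Type := {W : Submodule ℝ E3 // Module.finrank ℝ W = 2}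

/-- The action of the orthogonal group on the Grassmannian. -/
noncomputable def act (g : E3 ≃ₗᵢ[ℝ] E3) (W : Gr) : Gr :=
  ⟨W.1.map (g.toLinearEquiv : E3 →ₗ[ℝ] E3), by
    rw [LinearEquiv.finrank_map_eq]
    exact W.2⟩

/-- The image of a set under the orthogonal projection onto a plane. -/
noncomputable def projImage (W : Gr) (A : Set E3) : Set E3 := (fun x => W.1.starProjection x) '' A

/-! ### Covering numbers of sets in a line -/

section line

variable {X : Type} [NormedAddCommGroup X] [NormedSpace ℝ X] {u : X}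

/-- The copy of `F` in the line spanned by `u`. -/
def G (u : X) : Set X := (fun x : ℝ => x • u) '' F

lemma dist_smul' (u : X) (x y : ℝ) : dist (x • u) (y • u) = |x - y| * ‖u‖ := by
  rw [dist_eq_norm, ← sub_smul, norm_smul, Real.norm_eq_abs]

lemma exists_cover (hu : u ≠ 0) {R r : ℝ} (hr : 0 < r) (hrR : r < R) (x₀ : ℝ) :
    ∃ n : ℕ, (n : ℝ) ≤ 3 * (R / r) ∧ ∃ U : Fin n → Set X,
      (∀ i, ∀ x ∈ U i, ∀ y ∈ U i, dist x y ≤ r) ∧ ball (x₀ • u) R ∩ G u ⊆ ⋃ i, U i := by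
  have hl : 0 < ‖u‖ := norm_pos_iff.2 hu
  have hR : 0 < R := hr.trans hrR
  refine ⟨⌈2 * R / r⌉₊, ?_, fun i => (fun x : ℝ => x • u) ''
    (Icc (x₀ - R / ‖u‖ + i * (r / ‖u‖)) (x₀ - R / ‖u‖ + (i + 1) * (r / ‖u‖))), ?_, ?_⟩
  · have h1 := (Nat.ceil_lt_add_one (show 0 ≤ 2 * R / r by positivity)).le
    have h2 : 1 ≤ R / r := by
      rw [le_div_iff₀ hr]; linarith
    have h3 : 2 * R / r = 2 * (R / r) := by ring
    rw [h3] at h1
    rw [h3]
    linarith
  · rintro i _ ⟨x, hx, rfl⟩ _ ⟨y, hy, rfl⟩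
    dsimp only
    rw [dist_smul']
    have h1 : |x - y| ≤ r / ‖u‖ := by
      rw [abs_le]
      have e : (i : ℝ) + 1 = i + 1 := rfl
      have h3 : ((i : ℝ) + 1) * (r / ‖u‖) = i * (r / ‖u‖) + r / ‖u‖ := by ring
      obtain ⟨hx1, hx2⟩ := hx
      obtain ⟨hy1, hy2⟩ := hy
      rw [h3] at hx2 hy2
      constructor <;> linarith
    calc |x - y| * ‖u‖ ≤ r / ‖u‖ * ‖u‖ := mul_le_mul_of_nonneg_right h1 hl.le
      _ = r := by field_simp
  · rintro _ ⟨hx, ⟨x, _, rfl⟩⟩
    rw [mem_ball] at hx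
    dsimp only at hx
    rw [dist_smul'] at hx
    have h1 : |x - x₀| < R / ‖u‖ := by
      rw [lt_div_iff₀ hl]; exact hx
    obtain ⟨h2, h3⟩ := abs_lt.1 h1
    set a : ℝ := (x - (x₀ - R / ‖u‖)) / (r / ‖u‖) with ha
    have hrl : 0 < r / ‖u‖ := by positivity
    have ha0 : 0 ≤ a := div_nonneg (by linarith) hrl.le
    have ha1 : a < 2 * R / r := by
      rw [ha, div_lt_iff₀ hrl]
      have : 2 * R / r * (r / ‖u‖) = 2 * (R / ‖u‖) := by field_simp
      rw [this]
      linarith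
    have hfl : ⌊a⌋₊ < ⌈2 * R / r⌉₊ := by
      rw [Nat.floor_lt ha0]
      exact ha1.trans_le (Nat.le_ceil _)
    have hx' : x = x₀ - R / ‖u‖ + a * (r / ‖u‖) := by
      rw [ha]; field_simp; ring
    refine mem_iUnion.2 ⟨⟨⌊a⌋₊, hfl⟩, x, ⟨?_, ?_⟩, rfl⟩
    · have := Nat.floor_le ha0
      have h4 := mul_le_mul_of_nonneg_right this hrl.le
      dsimp only
      linarith
    · have := (Nat.lt_floor_add_one a).le
      have h4 := mul_le_mul_of_nonneg_right this hrl.le
      dsimp only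
      linarith

lemma coverNum_le (hu : u ≠ 0) {R r : ℝ} (hr : 0 < r) (hrR : r < R) {x : X} (hx : x ∈ G u) :
    (coverNum r (ball x R ∩ G u) : ℝ) ≤ 3 * (R / r) := by
  obtain ⟨x₀, _, rfl⟩ := hx
  obtain ⟨n, hn, U, hU1, hU2⟩ := exists_cover hu hr hrR x₀
  have h1 : coverNum r (ball (x₀ • u) R ∩ G u) ≤ n := Nat.sInf_le ⟨U, hU1, hU2⟩
  have h2 : (coverNum r (ball (x₀ • u) R ∩ G u) : ℝ) ≤ n := by exact_mod_cast h1
  exact h2.trans hn

/-- Separated points bound the covering number from below. -/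
lemma le_coverNum {Y : Type} [PseudoMetricSpace Y] {r : ℝ} {A : Set Y}
    (hA : ∃ (n : ℕ) (U : Fin n → Set Y), (∀ i, ∀ x ∈ U i, ∀ y ∈ U i, dist x y ≤ r) ∧
      A ⊆ ⋃ i, U i) {k : ℕ} (p : Fin k → Y) (hp : ∀ i, p i ∈ A)
    (hsep : ∀ i j, i ≠ j → r < dist (p i) (p j)) : k ≤ coverNum r A := by
  have h1 : coverNum r A ∈ {n : ℕ | ∃ U : Fin n → Set Y,
      (∀ i, ∀ x ∈ U i, ∀ y ∈ U i, dist x y ≤ r) ∧ A ⊆ ⋃ i, U i} := by
    obtain ⟨n, U, hU⟩ := hA
    exact Nat.sInf_mem ⟨n, U, hU⟩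
  obtain ⟨U, hU1, hU2⟩ := h1
  have h2 : ∀ i, ∃ j, p i ∈ U j := fun i => mem_iUnion.1 (hU2 (hp i))
  choose f hf using h2
  have hinj : Function.Injective f := by
    intro i j hij
    by_contra hne
    have h3 := hU1 (f i) (p i) (hf i) (p j) (by rw [hij]; exact hf j)
    have h4 := hsep i j hne
    linarith
  have := Fintype.card_le_of_injective f hinj
  simpa using this

/-- The key lower bound. -/
lemma lower (hu : u ≠ 0) {s C : ℝ} (h : ∀ R : ℝ, 0 < R → ∀ r : ℝ, 0 < r → r < R →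
    ∀ x ∈ G u, (coverNum r (ball x R ∩ G u) : ℝ) ≤ C * (R / r) ^ s) (k : ℕ) (hk : 0 < k) :
    (k : ℝ) ≤ C * (8 * k) ^ s := by
  have hl : 0 < ‖u‖ := norm_pos_iff.2 hu
  have hk' : (0 : ℝ) < k := by exact_mod_cast hk
  obtain ⟨ρ, hρ, hnet⟩ := net_F (δ := 1 / (8 * k)) (by positivity)
  have h1 : ∀ i : Fin k, ∃ y ∈ F, ρ * (1 / 2 + (i : ℝ) / (2 * k)) * (1 - 1 / (8 * k)) ≤ y ∧
      y ≤ ρ * (1 / 2 + (i : ℝ) / (2 * k)) := by
    intro i
    apply hnet
    · positivity
    · have hi : (i : ℝ) ≤ k := by exact_mod_cast i.2.le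
      have : (i : ℝ) / (2 * k) ≤ 1 / 2 := by
        rw [div_le_iff₀ (by positivity)]
        linarith
      nlinarith
  choose y hyF hy1 hy2 using h1
  have hq : ρ * (1 / (8 * k)) = ρ / (8 * k) := by ring
  have hy1' : ∀ i : Fin k, ρ * (1 / 2 + (i : ℝ) / (2 * k)) - ρ / (8 * k) ≤ y i := by
    intro i
    refine le_trans ?_ (hy1 i)
    have hi : (i : ℝ) ≤ k := by exact_mod_cast i.2.le
    have h2 : 1 / 2 + (i : ℝ) / (2 * k) ≤ 1 := by
      have : (i : ℝ) / (2 * k) ≤ 1 / 2 := by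
        rw [div_le_iff₀ (by positivity)]
        linarith
      linarith
    have h3 : ρ * (1 / 2 + (i : ℝ) / (2 * k)) * (1 / (8 * k)) ≤ ρ * 1 * (1 / (8 * k)) := by
      apply mul_le_mul_of_nonneg_right _ (by positivity)
      exact mul_le_mul_of_nonneg_left h2 hρ.le
    rw [mul_one, hq] at h3
    linarith
  have hsep : ∀ i j : Fin k, i < j → ρ / (4 * k) < y j - y i := by
    intro i j hij
    have h2 : ((i : ℕ) : ℝ) + 1 ≤ (j : ℕ) := by exact_mod_cast hij
    have h3 := hy1' j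
    have h4 := hy2 i
    have h5 : ρ * (1 / 2 + (j : ℝ) / (2 * k)) - ρ * (1 / 2 + (i : ℝ) / (2 * k)) =
        ρ / (2 * k) * (j - i) := by ring
    have h6 : ρ / (2 * k) * 1 ≤ ρ / (2 * k) * ((j : ℝ) - i) :=
      mul_le_mul_of_nonneg_left (by linarith) (by positivity)
    have h7 : ρ / (2 * k) = 4 * (ρ / (8 * k)) := by field_simp; norm_num
    have h8 : ρ / (4 * k) = 2 * (ρ / (8 * k)) := by field_simp; norm_num
    have h9 : 0 < ρ / (8 * k) := by positivity
    rw [h8]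
    rw [h7] at h6
    rw [h7] at h5
    linarith
  have hsep' : ∀ i j : Fin k, i ≠ j → ρ / (4 * k) < |y i - y j| := by
    intro i j hij
    rcases lt_or_gt_of_ne hij with h2 | h2
    · have := hsep i j h2
      rw [abs_sub_comm]
      exact lt_of_lt_of_le this (le_abs_self _)
    · have := hsep j i h2
      exact lt_of_lt_of_le this (le_abs_self _)
  have h0 : (0 : X) ∈ G u := ⟨0, zero_mem_F, by simp⟩
  have hk1 : (1 : ℝ) ≤ k := by exact_mod_cast hk
  have hr : 0 < ρ * ‖u‖ / (4 * k) := by positivity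
  have hrR : ρ * ‖u‖ / (4 * k) < 2 * (ρ * ‖u‖) := by
    rw [div_lt_iff₀ (by positivity)]
    have : 0 < ρ * ‖u‖ := by positivity
    nlinarith
  have h2 : k ≤ coverNum (ρ * ‖u‖ / (4 * k)) (ball (0 : X) (2 * (ρ * ‖u‖)) ∩ G u) := by
    apply le_coverNum _ (fun i => y i • u)
    · intro i
      refine ⟨?_, y i, hyF i, rfl⟩
      rw [mem_ball_zero_iff, norm_smul, Real.norm_of_nonneg (F_unit (hyF i)).1]
      have h3 := hy2 i
      have hi : (i : ℝ) ≤ k := by exact_mod_cast i.2.le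
      have h4 : 1 / 2 + (i : ℝ) / (2 * k) ≤ 1 := by
        have : (i : ℝ) / (2 * k) ≤ 1 / 2 := by
          rw [div_le_iff₀ (by positivity)]
          linarith
        linarith
      have h5 : ρ * (1 / 2 + (i : ℝ) / (2 * k)) ≤ ρ * 1 := mul_le_mul_of_nonneg_left h4 hρ.le
      have h6 : y i * ‖u‖ ≤ ρ * 1 * ‖u‖ := mul_le_mul_of_nonneg_right (h3.trans h5) hl.le
      have : 0 < ρ * ‖u‖ := by positivity
      linarith
    · intro i j hij
      rw [dist_smul']
      have h3 := mul_lt_mul_of_pos_right (hsep' i j hij) hl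
      have h4 : ρ / (4 * k) * ‖u‖ = ρ * ‖u‖ / (4 * k) := by ring
      rwa [h4] at h3
    · obtain ⟨n, _, U, hU1, hU2⟩ := exists_cover hu hr hrR 0
      rw [zero_smul] at hU2
      exact ⟨n, U, hU1, hU2⟩
  have h3 := h (2 * (ρ * ‖u‖)) (by positivity) _ hr hrR 0 h0
  have h4 : 2 * (ρ * ‖u‖) / (ρ * ‖u‖ / (4 * k)) = 8 * k := by field_simp; norm_num
  rw [h4] at h3
  have h5 : (k : ℝ) ≤ (coverNum (ρ * ‖u‖ / (4 * k)) (ball (0 : X) (2 * (ρ * ‖u‖)) ∩ G u) : ℝ) := by
    exact_mod_cast h2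
  exact h5.trans h3

lemma dimA_G (hu : u ≠ 0) : dimA (G u) = 1 := by
  apply le_antisymm
  · apply csInf_le ⟨0, fun s hs => hs.1⟩
    refine ⟨zero_le_one, 3, by norm_num, fun R _ r hr hrR x hx => ?_⟩
    rw [Real.rpow_one]
    exact coverNum_le hu hr hrR hx
  · apply le_csInf
    · refine ⟨1, zero_le_one, 3, by norm_num, fun R _ r hr hrR x hx => ?_⟩
      rw [Real.rpow_one]
      exact coverNum_le hu hr hrR hx
    · rintro s ⟨hs0, C, hC, h⟩
      by_contra hs1
      push Not at hs1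
      have h1 : Tendsto (fun k : ℕ => (k : ℝ) ^ (1 - s)) atTop atTop :=
        (tendsto_rpow_atTop (by linarith)).comp tendsto_natCast_atTop_atTop
      obtain ⟨k, hk1, hk2⟩ := ((h1.eventually_gt_atTop (C * 8 ^ s)).and
        (eventually_gt_atTop 0)).exists
      have h2 := lower hu h k hk2
      have hk' : (0 : ℝ) < k := by exact_mod_cast hk2
      rw [Real.mul_rpow (by norm_num) hk'.le, ← mul_assoc] at h2
      rw [Real.rpow_sub hk', Real.rpow_one, lt_div_iff₀ (by positivity)] at hk1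
      linarith

lemma dimH_G (u : X) : dimH (G u) ≤ ((1 / 2 : NNReal) : ℝ≥0∞) := by
  have h1 : LipschitzWith (⟨‖u‖, norm_nonneg u⟩ : NNReal) (fun x : ℝ => x • u) := by
    apply LipschitzWith.of_dist_le_mul
    intro x y
    rw [dist_smul', Real.dist_eq, mul_comm]
    rfl
  exact (h1.dimH_image_le F).trans dimH_F_le

end line

/-! ### The set in space -/

/-- The first basis vector. -/
noncomputable def e1 : E3 := EuclideanSpace.single 0 1

lemma norm_e1 : ‖e1‖ = 1 := by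
  rw [e1, EuclideanSpace.norm_single]
  simp

lemma e1_apply (j : Fin 3) : e1 j = if j = 0 then 1 else 0 := by
  rw [e1, EuclideanSpace.single_apply]

lemma smul_e1_mem_cube {x : ℝ} (h0 : 0 ≤ x) (h1 : x ≤ 1) : x • e1 ∈ cube 3 := by
  intro j
  rw [PiLp.smul_apply, e1_apply, smul_eq_mul]
  split_ifs
  · constructor <;> linarith
  · simp

lemma selfSimilar_G : IsSelfSimilar (G e1) := by
  refine ⟨3, cc, fun _ => LinearIsometryEquiv.refl ℝ E3, fun i => tt i • e1, fun i =>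
    ⟨cc_pos i, by linarith [cc_le i]⟩, ?_, ⟨0, 0, zero_mem_F, by simp⟩, ?_, ?_, ?_⟩
  · intro i x hx j
    obtain ⟨h0, h1⟩ := hx j
    rw [LinearIsometryEquiv.coe_refl, id_eq, PiLp.add_apply, PiLp.smul_apply, PiLp.smul_apply,
      e1_apply, smul_eq_mul, smul_eq_mul]
    have hS := S_mem i (show x j ∈ Icc (0 : ℝ) 1 from ⟨h0, h1⟩)
    have ht : 0 ≤ tt i := by
      fin_cases i <;> norm_num [tt]
    rw [S] at hS
    split_ifs
    · rw [mul_one]
      exact hS
    · rw [mul_zero, add_zero]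
      have hc := cc_pos i
      exact ⟨by positivity, by linarith [hS.2]⟩
  · exact isCompact_F.image (by fun_prop)
  · rintro _ ⟨x, hx, rfl⟩
    exact smul_e1_mem_cube (F_unit hx).1 (F_unit hx).2
  · ext y
    constructor
    · rintro ⟨x, hx, rfl⟩
      obtain ⟨i, z, hz, rfl⟩ := exists_of_mem_F hx
      refine mem_iUnion.2 ⟨i, z • e1, ⟨z, hz, rfl⟩, ?_⟩
      show cc i • (z • e1) + tt i • e1 = (cc i * z + tt i) • e1
      rw [add_smul, mul_smul]
    · intro hy
      obtain ⟨i, _, ⟨z, hz, rfl⟩, rfl⟩ := mem_iUnion.1 hy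
      refine ⟨S i z, S_mem_F i hz, ?_⟩
      show (cc i * z + tt i) • e1 = cc i • (z • e1) + tt i • e1
      rw [add_smul, mul_smul]

lemma projImage_G (W : Gr) : projImage W (G e1) = G (W.1.starProjection e1) := by
  ext y
  constructor
  · rintro ⟨_, ⟨x, hx, rfl⟩, rfl⟩
    exact ⟨x, hx, (map_smul _ _ _).symm⟩
  · rintro ⟨x, hx, rfl⟩
    exact ⟨x • e1, ⟨x, hx, rfl⟩, map_smul _ _ _⟩

/-- The exceptional plane. -/
lemma eq_of_proj_eq_zero {W : Gr} {v : E3} (hv : v ≠ 0) (h : W.1.starProjection v = 0) :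
    W.1 = (ℝ ∙ v)ᗮ := by
  have h1 : v ∈ W.1ᗮ := (Submodule.starProjection_apply_eq_zero_iff W.1).1 h
  have h2 : W.1 ≤ (ℝ ∙ v)ᗮ := by
    intro w hw
    rw [Submodule.mem_orthogonal_singleton_iff_inner_right]
    exact Submodule.inner_left_of_mem_orthogonal hw h1
  apply Submodule.eq_of_le_of_finrank_eq h2
  rw [W.2]
  have h3 := Submodule.finrank_add_finrank_orthogonal (ℝ ∙ v)
  rw [finrank_span_singleton hv] at h3
  have h4 : Module.finrank ℝ E3 = 3 := by simp
  omega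

/-- The plane orthogonal to a nonzero vector. -/
noncomputable def perp (v : E3) (hv : v ≠ 0) : Gr := ⟨(ℝ ∙ v)ᗮ, by
  have h3 := Submodule.finrank_add_finrank_orthogonal (ℝ ∙ v)
  rw [finrank_span_singleton hv] at h3
  have h4 : Module.finrank ℝ E3 = 3 := by simp
  omega⟩

lemma exists_isometry {v w : E3} (h : ‖v‖ = ‖w‖) : ∃ g : E3 ≃ₗᵢ[ℝ] E3, g v = w :=
  ⟨(ℝ ∙ (v - w))ᗮ.reflection, Submodule.reflection_sub h⟩

lemma act_perp {v w : E3} (hv : v ≠ 0) (hw : w ≠ 0) (g : E3 ≃ₗᵢ[ℝ] E3) (hg : g v = w) :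
    act g (perp v hv) = perp w hw := by
  apply Subtype.ext
  show ((ℝ ∙ v)ᗮ).map (g.toLinearEquiv : E3 →ₗ[ℝ] E3) = (ℝ ∙ w)ᗮ
  ext x
  constructor
  · rintro ⟨y, hy, rfl⟩
    rw [Submodule.mem_orthogonal_singleton_iff_inner_right]
    have hy' : y ∈ (ℝ ∙ v)ᗮ := hy
    rw [Submodule.mem_orthogonal_singleton_iff_inner_right] at hy'
    rw [← hg]
    show inner ℝ (g v) (g y) = 0
    rw [LinearIsometryEquiv.inner_map_map]
    exact hy'
  · intro hx
    rw [Submodule.mem_orthogonal_singleton_iff_inner_right] at hx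
    refine ⟨g.symm x, ?_, g.apply_symm_apply x⟩
    show g.symm x ∈ (ℝ ∙ v)ᗮ
    rw [Submodule.mem_orthogonal_singleton_iff_inner_right]
    rw [← LinearIsometryEquiv.inner_map_map g, hg, LinearIsometryEquiv.apply_symm_apply]
    exact hx

/-- Infinitely many directions. -/
noncomputable def dir (n : ℕ) : E3 := EuclideanSpace.single 0 1 + EuclideanSpace.single 1 (n : ℝ)

lemma dir_zero_apply (n : ℕ) : dir n 0 = 1 := by
  rw [dir, PiLp.add_apply, EuclideanSpace.single_apply, EuclideanSpace.single_apply]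
  simp

lemma dir_one_apply (n : ℕ) : dir n 1 = n := by
  rw [dir, PiLp.add_apply, EuclideanSpace.single_apply, EuclideanSpace.single_apply]
  simp

lemma dir_ne (n : ℕ) : dir n ≠ 0 := by
  intro h
  have := dir_zero_apply n
  rw [h] at this
  simp at this

lemma perp_injective : Function.Injective (fun n => perp (dir n) (dir_ne n)) := by
  intro m n hmn
  have h1 : (ℝ ∙ dir m)ᗮ = (ℝ ∙ dir n)ᗮ := congrArg Subtype.val hmn
  have h2 : (ℝ ∙ dir m) = (ℝ ∙ dir n) := by
    rw [← Submodule.orthogonal_orthogonal (ℝ ∙ dir m), h1, Submodule.orthogonal_orthogonal]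
  have h3 : dir m ∈ (ℝ ∙ dir n) := by
    rw [← h2]; exact Submodule.mem_span_singleton_self _
  obtain ⟨a, ha⟩ := Submodule.mem_span_singleton.1 h3
  have h4 : a = 1 := by
    have := congrArg (fun v : E3 => v 0) ha
    dsimp only at this
    rw [PiLp.smul_apply, dir_zero_apply, dir_zero_apply, smul_eq_mul, mul_one] at this
    exact this
  rw [h4, one_smul] at ha
  have h5 := congrArg (fun v : E3 => v 1) ha
  dsimp only at h5
  rw [dir_one_apply, dir_one_apply] at h5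
  exact_mod_cast h5.symm

/-- An invariant probability measure on the Grassmannian has no atoms. -/
lemma measure_perp [MeasurableSpace Gr] [MeasurableSingletonClass Gr]
    (m : MeasureTheory.Measure Gr) [MeasureTheory.IsProbabilityMeasure m]
    (hm : ∀ (g : E3 ≃ₗᵢ[ℝ] E3) (A : Set Gr), MeasurableSet A → m (act g '' A) = m A)
    (v : E3) (hv : v ≠ 0) : m {perp v hv} = 0 := by
  have hscale : ∀ (w : E3) (hw : w ≠ 0) (c : ℝ) (hc : c ≠ 0),
      perp (c • w) (smul_ne_zero hc hw) = perp w hw := by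
    intro w hw c hc
    apply Subtype.ext
    show (ℝ ∙ (c • w))ᗮ = (ℝ ∙ w)ᗮ
    rw [Submodule.span_singleton_smul_eq (IsUnit.mk0 c hc)]
  have hsame : ∀ (w : E3) (hw : w ≠ 0), m {perp w hw} = m {perp v hv} := by
    intro w hw
    have hv' : 0 < ‖v‖ := norm_pos_iff.2 hv
    have hw' : 0 < ‖w‖ := norm_pos_iff.2 hw
    have hc : ‖v‖ / ‖w‖ ≠ 0 := by positivity
    have hnorm : ‖v‖ = ‖(‖v‖ / ‖w‖) • w‖ := by
      rw [norm_smul, norm_div, norm_norm, norm_norm]
      field_simp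
    obtain ⟨g, hg⟩ := exists_isometry hnorm
    have h1 := hm g {perp v hv} (measurableSet_singleton _)
    rw [Set.image_singleton, act_perp hv (smul_ne_zero hc hw) g hg, hscale w hw _ hc] at h1
    exact h1
  by_contra hne
  have h1 : m (⋃ n, {perp (dir n) (dir_ne n)}) = ∑' n, m {perp (dir n) (dir_ne n)} := by
    apply MeasureTheory.measure_iUnion
    · intro i j hij
      rw [Function.onFun, Set.disjoint_singleton]
      exact fun h => hij (perp_injective h)
    · exact fun n => measurableSet_singleton _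
  have h2 : ∑' n : ℕ, m {perp (dir n) (dir_ne n)} = ⊤ := by
    have h3 : (fun n : ℕ => m {perp (dir n) (dir_ne n)}) = fun _ => m {perp v hv} := by
      funext n
      exact hsame _ _
    rw [h3]
    exact ENNReal.tsum_const_eq_top_of_ne_zero hne
  rw [h2] at h1
  have h3 := MeasureTheory.measure_ne_top m (⋃ n, {perp (dir n) (dir_ne n)})
  exact h3 h1

/-- There is a self-similar set `A` in the unit cube of `ℝ ^ 3` such that for every plane `W` but
one, and hence for almost every plane with respect to every invariant probability measure on the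
Grassmannian, the projection of `A` to `W` has Assouad dimension `1` and Hausdorff dimension at
most `1/2`. In particular the Assouad dimension of the projection is neither `2` nor its Hausdorff
dimension. -/
theorem result : ∃ A : Set E3, IsSelfSimilar A ∧
    (∃ W₀ : Gr, ∀ W : Gr, W ≠ W₀ →
      dimA (projImage W A) = 1 ∧ dimH (projImage W A) ≤ ((1 / 2 : NNReal) : ℝ≥0∞)) ∧
    ∀ [MeasurableSpace Gr] [MeasurableSingletonClass Gr] (m : MeasureTheory.Measure Gr)
      [MeasureTheory.IsProbabilityMeasure m],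
      (∀ (g : E3 ≃ₗᵢ[ℝ] E3) (B : Set Gr), MeasurableSet B → m (act g '' B) = m B) →
      ∀ᵐ W ∂m, dimA (projImage W A) ≠ 2 ∧
        ENNReal.ofReal (dimA (projImage W A)) ≠ dimH (projImage W A) := by
  have he : e1 ≠ 0 := by
    intro h
    have := norm_e1
    rw [h, norm_zero] at this
    norm_num at this
  have key : ∀ W : Gr, W ≠ perp e1 he →
      dimA (projImage W (G e1)) = 1 ∧ dimH (projImage W (G e1)) ≤ ((1 / 2 : NNReal) : ℝ≥0∞) := by
    intro W hW
    rw [projImage_G]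
    refine ⟨dimA_G ?_, dimH_G _⟩
    intro h
    exact hW (Subtype.ext (eq_of_proj_eq_zero he h))
  refine ⟨G e1, selfSimilar_G, ⟨perp e1 he, key⟩, ?_⟩
  intro _ _ m _ hm
  have h1 := measure_perp m hm e1 he
  have h2 : ∀ᵐ W ∂m, W ≠ perp e1 he := by
    rw [MeasureTheory.ae_iff]
    simpa using h1
  filter_upwards [h2] with W hW
  obtain ⟨h3, h4⟩ := key W hW
  rw [h3]
  refine ⟨by norm_num, fun h5 => ?_⟩
  rw [← h5, ENNReal.ofReal_one] at h4
  have h6 : ((1 / 2 : NNReal) : ℝ≥0∞) < 1 := by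
    rw [← ENNReal.coe_one, ENNReal.coe_lt_coe]
    norm_num
  exact absurd h4 (not_le.2 h6)

end Pool.Agent.Results.MP_c72560_an.LineInSpace
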